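import Pool.Agent.Y939.SC.Several

/-!
# Several general monomial collisions of fat points at once

Let `r_1, ..., r_s ≥ 1` and `m_1, ..., m_s` be any natural numbers, `n = r_1 + ... + r_s > 9`, not all
`m_i` equal to zero. For every field `k` of any characteristic and all `(c_i, a_i)` outside a
hypersurface of the affine space of all parameters, the union `Y` of the subschemes `Y_i` of the
plane with the ideals

  `(y - (a_i0 + a_i1 x + ... + a_i(r_i-1) x ^ (r_i-1)), (x - c_i) ^ r_i) ^ m_i`

(general monomial collisions of `r_i` points of multiplicity `m_i`) lies on no curve of degree `d`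
with `d √n ≤ r_1 m_1 + ... + r_s m_s`. For `n = 9` the same is true for `3 d < ∑ r_i m_i`.

* `s = 1` is Q1: `H⁰(I_Y(d)) = 0` for `I = (y, x ^ r) ^ m`, `r > 9` and `d ≤ m √r`.
* `r_1 = ... = r_s = 1` is Nagata's inequality for `s > 9` general points of the plane with arbitrary
  multiplicities: no curve of degree `d ≤ (m_1 + ... + m_s) / √s` has multiplicity at least `m_i` at
  the `i`-th point.

The starting result `CollisionsAllCharacteristics` is the case `s = 1` over algebraically closed
fields. The proof uses its library (emptiness of the linear system for a toric degeneration of the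
plane and the tube argument), which is made for several germs; the passage from one configuration
to general ones is a determinant with integral entries in all parameters.
-/

set_option autoImplicit false

namespace Pool.Agent.Results.MP_cea741_ag.SeveralCollisions

open Polynomial

universe u

/-- the ideal `(y - q(x), (x - c) ^ r) ^ m` of `k[x][y]`, where `q = ∑ a_j x ^ j`, `j < r` -/
noncomputable def collision {k : Type u} [Field k] (r m : ℕ) (c : k) (a : Fin r → k) :
    Ideal k[X][X] :=
  (Ideal.span {X - C (∑ j : Fin r, C (a j) * X ^ (j : ℕ)), C ((X - C c) ^ r)}) ^ m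

/-- the polynomial `P(x, y, 1)` of `k[x][y]` -/
noncomputable def affine {k : Type u} [Field k] (P : MvPolynomial (Fin 3) k) : k[X][X] :=
  MvPolynomial.aeval ![C X, X, 1] P

/-- the list of all the parameters `c_i, a_i0, ..., a_i(r_i-1)` -/
def parameters {k : Type u} {s : ℕ} {r : Fin s → ℕ} (c : Fin s → k)
    (a : (i : Fin s) → Fin (r i) → k) (q : (i : Fin s) × Fin (r i + 1)) : k :=
  (Fin.cons (c q.1) (a q.1) : Fin (r q.1 + 1) → k) q.2

/-- General unions of monomial collisions lie on no curve of degree `d ≤ (∑ r_i m_i) / √(∑ r_i)`. -/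
theorem result {s : ℕ} (r m : Fin s → ℕ) (hr : ∀ i, 1 ≤ r i) (hm : ∃ i, 0 < m i)
    (k : Type u) [Field k] :
    ∃ F : MvPolynomial ((i : Fin s) × Fin (r i + 1)) k, F ≠ 0 ∧
      ∀ (c : Fin s → k) (a : (i : Fin s) → Fin (r i) → k),
        MvPolynomial.eval (parameters c a) F ≠ 0 →
        ∀ d : ℕ,
          (9 < ∑ i, r i ∧ Real.sqrt (∑ i, (r i : ℝ)) * d ≤ ∑ i, (r i : ℝ) * m i) ∨
            (∑ i, r i = 9 ∧ 3 * d < ∑ i, r i * m i) →
          ∀ P : MvPolynomial (Fin 3) k, P.IsHomogeneous d →
            (∀ i, affine P ∈ collision (r i) (m i) (c i) (a i)) → P = 0 := by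
  obtain ⟨F, hF, h⟩ := Pool.Agent.Y939.SC.main (ι := Fin s) hr hm k
  refine ⟨F, hF, fun c a hc d hd P hP hI => ?_⟩
  have e1 : (∑ i, (r i : ℝ)) = ((∑ i, r i : ℕ) : ℝ) := by push_cast; rfl
  have e2 : (∑ i, (r i : ℝ) * m i) = ((∑ i, r i * m i : ℕ) : ℝ) := by push_cast; rfl
  have hd' : Pool.Agent.Y939.SC.Cond r m d := by
    rcases hd with ⟨h1, h2⟩ | ⟨h1, h2⟩
    · rw [e1, e2] at h2
      exact Or.inr ⟨h1, h2⟩
    · refine Or.inl ⟨h1.ge, ?_⟩
      rw [h1]
      have h3 : Real.sqrt ((9 : ℕ) : ℝ) = 3 := by
        rw [show ((9 : ℕ) : ℝ) = 3 ^ 2 by norm_num]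
        exact Real.sqrt_sq (by norm_num)
      rw [h3]
      exact_mod_cast h2
  refine h c a hc d hd' P ((MvPolynomial.mem_homogeneousSubmodule _ _).2 hP) ?_
  rw [Pool.Agent.Y939.SC.mem_jets_iff]
  exact hI

end Pool.Agent.Results.MP_cea741_ag.SeveralCollisions
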